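import Pool.Agent.W739.CY.Stm

/-! # The mirror relations -/

set_option autoImplicit false

namespace Pool.Agent.W120.CY

open Pool.Agent.W739.CY

section
variable {C : Type} [DecidableEq C]

theorem ok_symm (a b : Option C) : ok a b ↔ ok b a := by
  unfold ok
  cases a <;> cases b <;> simp [eq_comm]

theorem Pr_append : ∀ (w : List C) (a b : Option C) (x : C),
    Pr a (w ++ [x]) b ↔ Pr a w (some x) ∧ ok (some x) b
  | [], a, b, x => by simp [Pr]
  | y :: w, a, b, x => by
    have ih := Pr_append w (some y) b x
    simp only [List.cons_append, Pr, ih, and_assoc]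

theorem Pr_rev : ∀ (w : List C) (a b : Option C), Pr a w b ↔ Pr b w.reverse a
  | [], a, b => by simp only [List.reverse_nil, Pr]; exact ok_symm a b
  | x :: w, a, b => by
    rw [List.reverse_cons, Pr_append, ← Pr_rev w (some x) b, ok_symm (some x) a]
    simp only [Pr]
    exact and_comm

theorem spl_congr : ∀ (w : List C) (f g : List C → C → List C → ℝ),
    (∀ v c u, w = v ++ c :: u → f v c u = g v c u) → spl f w = spl g w
  | [], _, _, _ => rfl
  | x :: w, f, g, h => by
    simp only [spl]
    rw [h [] x w rfl, spl_congr w (fun v c u => f (x :: v) c u) (fun v c u => g (x :: v) c u)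
      (fun v c u e => h (x :: v) c u (by rw [e]; rfl))]

theorem spl_smul (k : ℝ) : ∀ (w : List C) (f : List C → C → List C → ℝ),
    spl (fun v c u => k * f v c u) w = k * spl f w
  | [], _ => by simp [spl]
  | x :: w, f => by
    simp only [spl]
    rw [spl_smul k w (fun v c u => f (x :: v) c u)]
    ring

theorem spl_add : ∀ (w : List C) (f g : List C → C → List C → ℝ),
    spl (fun v c u => f v c u + g v c u) w = spl f w + spl g w
  | [], _, _ => by simp [spl]
  | x :: w, f, g => by
    simp only [spl]
    rw [spl_add w (fun v c u => f (x :: v) c u) (fun v c u => g (x :: v) c u)]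
    ring

theorem spl_append : ∀ (w : List C) (x : C) (f : List C → C → List C → ℝ),
    spl f (w ++ [x]) = spl (fun v c u => f v c (u ++ [x])) w + f w x []
  | [], x, f => by simp [spl]
  | y :: w, x, f => by
    simp only [List.cons_append, spl]
    rw [spl_append w x (fun v c u => f (y :: v) c u)]
    ring

theorem spl_rev : ∀ (w : List C) (f : List C → C → List C → ℝ),
    spl f w.reverse = spl (fun v c u => f u.reverse c v.reverse) w
  | [], f => rfl
  | x :: w, f => by
    rw [List.reverse_cons, spl_append, spl_rev w (fun v c u => f v c (u ++ [x]))]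
    simp only [spl, List.reverse_nil, List.reverse_cons]
    ring

theorem spl_assoc : ∀ (w : List C) (f : List C → C → List C → C → List C → ℝ),
    spl (fun v j rest => spl (fun g k u => f v j g k u) rest) w =
      spl (fun pre k u => spl (fun v j g => f v j g k u) pre) w
  | [], f => rfl
  | x :: w, f => by
    simp only [spl]
    rw [spl_assoc w (fun v j g k u => f (x :: v) j g k u), spl_add, zero_add]

theorem len_split {w v u : List C} {c : C} (h : w = v ++ c :: u) :
    w.length = v.length + u.length + 1 := by
  rw [h, List.length_append, List.length_cons]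
  omega

end

theorem good_inv {p : ℝ} (h : Good p) : Good p⁻¹ :=
  ⟨inv_pos.2 h.1, fun e => h.2 (by rw [← inv_inv p, e, inv_one])⟩

theorem F_mir (hDEL : S_DEL) (C : Type) [DecidableEq C] (p : ℝ) (hp : Good p) :
    ∀ (n : ℕ) (a b : Option C) (w : List C), w.length = n →
      F p⁻¹ a w b = (-p) ^ w.length * F p b w.reverse a := by
  have hp' := good_inv hp
  have hp0 := hp.ne
  intro n
  induction n with
  | zero =>
    intro a b w hw
    have := List.length_eq_zero_iff.1 hw
    subst this
    obtain ⟨h1, _⟩ := hDEL C p⁻¹ hp' a b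
    obtain ⟨h2, _⟩ := hDEL C p hp b a
    rw [h1, List.reverse_nil, h2, List.length_nil, pow_zero, one_mul]
    by_cases h : ok a b
    · rw [if_pos h, if_pos ((ok_symm a b).1 h)]
    · rw [if_neg h, if_neg (fun e => h ((ok_symm a b).2 e))]
  | succ n ih =>
    intro a b w hw
    obtain ⟨_, a2, _, a4, _⟩ := hDEL C p⁻¹ hp' a b
    obtain ⟨_, b2, _, b4, _⟩ := hDEL C p hp b a
    by_cases hPr : Pr a w b
    · have hPr' : Pr b w.reverse a := (Pr_rev w a b).1 hPr
      have hne : w ≠ [] := by
        rintro rfl
        simp at hw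
      have hne' : w.reverse ≠ [] := by simpa using hne
      have e1 := a4 w hne hPr
      have e2 := b4 w.reverse hne' hPr'
      rw [spl_rev, List.length_reverse] at e2
      have e3 : spl (fun v _ u => p⁻¹ ^ u.length * F p⁻¹ a (v ++ u) b) w =
          (-1) ^ n * spl (fun v _ u => p ^ v.reverse.length *
            F p b (u.reverse ++ v.reverse) a) w := by
        rw [← spl_smul]
        apply spl_congr
        intro v c u hvu
        have hl := len_split hvu
        rw [ih a b (v ++ u) (by rw [List.length_append]; omega), List.reverse_append,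
          List.length_append, List.length_reverse, pow_add, neg_pow p v.length, neg_pow p u.length]
        have hn : n = v.length + u.length := by omega
        rw [hn, pow_add]
        have : p⁻¹ ^ u.length * p ^ u.length = 1 := by
          rw [← mul_pow, inv_mul_cancel₀ hp0, one_pow]
        linear_combination ((-1 : ℝ) ^ v.length * p ^ v.length * (-1) ^ u.length *
          F p b (u.reverse ++ v.reverse) a) * this
      rw [e3, ← e2, hw] at e1
      rw [hw]
      have hs : (1 : ℝ) - p⁻¹ ^ (n + 1) ≠ 0 := hp'.sub n
      apply mul_left_cancel₀ hs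
      rw [e1, neg_pow p, inv_pow]
      have hpn : p ^ (n + 1) ≠ 0 := pow_ne_zero _ hp0
      field_simp
      ring
    · have hPr' : ¬ Pr b w.reverse a := fun e => hPr ((Pr_rev w a b).2 e)
      rw [a2 w hPr, b2 w.reverse hPr', mul_zero]

theorem F1_mir (hDEL : S_DEL) (C : Type) [DecidableEq C] (p : ℝ) (hp : Good p)
    (a b : Option C) (w : List C) :
    F1 p⁻¹ a w b = (-p⁻¹) ^ w.length * F1 p b w.reverse a := by
  unfold F1
  rw [F_mir hDEL C p hp w.length a b w rfl, List.length_reverse, neg_pow p, neg_pow p⁻¹]
  ring

theorem G_mir (hDEL : S_DEL) (hROT : S_ROT) (C : Type) [DecidableEq C] (p : ℝ) (hp : Good p) :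
    ∀ (n : ℕ) (a b : Option C) (w : List C), w.length ≤ n →
      G p⁻¹ 1 a w b = (-p⁻¹) ^ w.length * G p (-p) b w.reverse a := by
  have hp' := good_inv hp
  have hp0 := hp.ne
  obtain ⟨_, r1, _⟩ := hROT C p⁻¹ 1 hp'
  obtain ⟨_, _, r2⟩ := hROT C p (-p) hp
  intro n
  induction n with
  | zero =>
    intro a b w hw
    have := List.length_eq_zero_iff.1 (Nat.le_zero.1 hw)
    subst this
    rw [r1 a b [], r2 b a _, F1_mir hDEL C p hp]
    simp [spl]
  | succ n ih =>
    intro a b w hw
    rw [r1 a b w, r2 b a w.reverse, F1_mir hDEL C p hp, spl_rev, one_mul, mul_add, ← mul_assoc,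
      ← spl_smul]
    congr 1
    apply spl_congr
    intro v c u hvu
    have hl := len_split hvu
    rw [F1_mir hDEL C p hp, ih (some c) b u (by omega), hl, pow_succ, pow_add]
    have : (-p⁻¹) * (-p) = 1 := by
      rw [neg_mul_neg, inv_mul_cancel₀ hp0]
    linear_combination (-((-p⁻¹) ^ v.length * (-p⁻¹) ^ u.length *
      (G p (-p) b u.reverse (some c) * F1 p (some c) v.reverse a))) * this

theorem t_MIR (hDEL : S_DEL) (hROT : S_ROT) : S_MIR := by
  intro C _ p hp
  have hp0 := hp.ne
  refine ⟨fun a b w => F_mir hDEL C p hp w.length a b w rfl, fun w => ?_⟩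
  have h1 : T p (-p) w.reverse = spl (fun V J rest => spl (fun Gm K U =>
      (-p) ^ 2 * G p (-p) (some K) Gm.reverse (some J) *
        F1 p (some J) (V.reverse ++ U.reverse) (some K)) rest) w := by
    unfold T
    rw [spl_rev]
    rw [spl_assoc w (fun V J Gm K U => (-p) ^ 2 * G p (-p) (some K) Gm.reverse (some J) *
        F1 p (some J) (V.reverse ++ U.reverse) (some K))]
    apply spl_congr
    intro v c u _
    rw [spl_rev]
  have h2 : T p⁻¹ 1 w = (-p⁻¹) ^ w.length * spl (fun V J rest => spl (fun Gm K U =>
      (-p) ^ 2 * G p (-p) (some K) Gm.reverse (some J) *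
        F1 p (some J) (V.reverse ++ U.reverse) (some K)) rest) w := by
    unfold T
    rw [← spl_smul]
    apply spl_congr
    intro V J rest hV
    rw [← spl_smul]
    apply spl_congr
    intro Gm K U hU
    have l1 := len_split hV
    have l2 := len_split hU
    rw [G_mir hDEL hROT C p hp Gm.length _ _ Gm le_rfl, F1_mir hDEL C p hp, List.reverse_append,
      List.length_append, l1, l2]
    have e1 : V.length + (Gm.length + U.length + 1) + 1 =
      Gm.length + (U.length + V.length) + 2 := by omega
    rw [e1, pow_add _ _ 2, pow_add]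
    have : (-p⁻¹) ^ 2 * (-p) ^ 2 = 1 := by
      rw [← mul_pow, neg_mul_neg, inv_mul_cancel₀ hp0, one_pow]
    linear_combination (-((-p⁻¹) ^ Gm.length * (-p⁻¹) ^ (U.length + V.length) *
      (G p (-p) (some K) Gm.reverse (some J) *
        F1 p (some J) (V.reverse ++ U.reverse) (some K)))) * this
  rw [h2, h1, ← mul_assoc, ← mul_pow, neg_mul_neg, mul_inv_cancel₀ hp0, one_pow, one_mul]

end Pool.Agent.W120.CY
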